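import Pool.Agent.KS6_12.GH.Pts

/-!
The configuration of points: `dim S_D` points, no form of degree `D` vanishes on them, and they split into two sets
on which the forms of degree `D - 1` take arbitrary values.
-/

set_option autoImplicit false

namespace Pool.Agent.KS6_12.GH

open MvPolynomial Finset

variable {K : Type} [Field K] {k : ℕ}

open Classical in
/-- the index of a large entry -/
noncomputable def jf (α : Fin (k + 2) → ℕ) : Fin (k + 2) :=
  if h : ∃ j, k + 2 ≤ α j then Classical.choose h else 0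

theorem exists_big {α : Fin (k + 2) → ℕ} (h : α ∈ AA (k + 2) ((k + 2) ^ 2)) : ∃ j, k + 2 ≤ α j := by
  by_contra hcon
  push Not at hcon
  rw [mem_AA] at h
  have h1 : ∑ j, α j ≤ ∑ _j : Fin (k + 2), (k + 1) := sum_le_sum fun j _ => by have := hcon j; omega
  rw [sum_const, card_univ, Fintype.card_fin, smul_eq_mul] at h1
  nlinarith

theorem jf_spec {α : Fin (k + 2) → ℕ} (h : α ∈ AA (k + 2) ((k + 2) ^ 2)) : k + 2 ≤ α (jf α) := by
  unfold jf
  rw [dif_pos (exists_big h)]
  exact Classical.choose_spec (exists_big h)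

/-- top exponents -/
def Tp (α : Fin (k + 2) → ℕ) : Prop := α 0 = 0 ∧ α 1 = 0

instance (α : Fin (k + 2) → ℕ) : Decidable (Tp α) := by unfold Tp; infer_instance

/-- the slice -/
noncomputable def rr (α : Fin (k + 2) → ℕ) : ℕ := (jf α).val

theorem jf_ne {α : Fin (k + 2) → ℕ} (h : α ∈ AA (k + 2) ((k + 2) ^ 2)) (ht : Tp α) : jf α ≠ 0 ∧ jf α ≠ 1 := by
  have h1 := jf_spec h
  constructor
  · intro h2; rw [h2, ht.1] at h1; omega
  · intro h2; rw [h2, ht.2] at h1; omega

theorem rr_ge {α : Fin (k + 2) → ℕ} (h : α ∈ AA (k + 2) ((k + 2) ^ 2)) (ht : Tp α) : 2 ≤ rr α := by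
  obtain ⟨h1, h2⟩ := jf_ne h ht
  have h3 : (jf α).val ≠ 0 := fun h => h1 (Fin.ext h)
  have h4 : (jf α).val ≠ 1 := fun h => h2 (Fin.ext h)
  unfold rr
  omega

theorem rr_lt {α : Fin (k + 2) → ℕ} (h : α ∈ AA (k + 2) ((k + 2) ^ 2)) : rr α + 1 ≤ α (jf α) := by
  have h1 := jf_spec h
  have h2 := (jf α).2
  unfold rr
  omega

/-- the points -/
noncomputable def yy (α : Fin (k + 2) → ℕ) : Fin (k + 2) → ℤ := fun i =>
  if Tp α then (if i = 0 then (rr α : ℤ) else if i = 1 then -(rr α : ℤ) else α i) else α i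

theorem yy_of_not {α : Fin (k + 2) → ℕ} (h : ¬ Tp α) : yy α = ip α := by
  funext i
  unfold yy ip
  rw [if_neg h]

theorem yy_zero {α : Fin (k + 2) → ℕ} (h : Tp α) : yy α 0 = rr α := by
  unfold yy; rw [if_pos h, if_pos rfl]

theorem yy_one {α : Fin (k + 2) → ℕ} (h : Tp α) : yy α 1 = -(rr α : ℤ) := by
  unfold yy; rw [if_pos h, if_neg (by simp), if_pos rfl]

theorem yy_other {α : Fin (k + 2) → ℕ} {i : Fin (k + 2)} (h0 : i ≠ 0) (h1 : i ≠ 1) : yy α i = α i := by
  unfold yy
  rw [if_neg h0, if_neg h1]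
  split_ifs <;> rfl

theorem yy_sum {α : Fin (k + 2) → ℕ} (h : α ∈ AA (k + 2) ((k + 2) ^ 2)) : ∑ j, yy α j = ((k + 2) ^ 2 : ℕ) := by
  by_cases ht : Tp α
  · rw [mem_AA] at h
    rw [← h]
    push_cast
    rw [← Finset.add_sum_erase univ _ (mem_univ (0 : Fin (k + 2))), ← Finset.add_sum_erase (univ.erase 0) _ (a := 1) (by simp),
      ← Finset.add_sum_erase univ (fun i => (α i : ℤ)) (mem_univ (0 : Fin (k + 2))),
      ← Finset.add_sum_erase (univ.erase 0) (fun i => (α i : ℤ)) (a := 1) (by simp), yy_zero ht, yy_one ht, ht.1, ht.2]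
    have : ∑ x ∈ (univ.erase (0 : Fin (k + 2))).erase 1, yy α x = ∑ x ∈ (univ.erase (0 : Fin (k + 2))).erase 1, (α x : ℤ) := by
      apply sum_congr rfl
      intro i hi
      rw [mem_erase, mem_erase] at hi
      exact yy_other hi.2.1 hi.1
    rw [this]
    push_cast
    ring
  · rw [yy_of_not ht]
    exact ip_sum h

/-! ### the two families -/

/-- the ranges for `P` -/
noncomputable def IP (α : Fin (k + 2) → ℕ) (i : Fin (k + 2)) : Finset ℤ := if i = 1 then Ico 1 (α 1 : ℤ) else Ico 0 (α i : ℤ)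

/-- the ranges for `Q` -/
noncomputable def IQ (α : Fin (k + 2) → ℕ) (i : Fin (k + 2)) : Finset ℤ :=
  if Tp α then (if i = 1 then Ioc (-(rr α : ℤ)) 0 else if i = jf α then Ico ((rr α : ℤ) + 1) (α i) else Ico 0 (α i : ℤ))
  else (if i = 0 then Ico 1 (α 0 : ℤ) else Ico 0 (α i : ℤ))

theorem IP_card {α : Fin (k + 2) → ℕ} {D : ℕ} (h : α ∈ AA (k + 2) D) (h1 : 1 ≤ α 1) : ∑ j, #(IP α j) = D - 1 := by
  rw [mem_AA] at h
  rw [← Finset.add_sum_erase univ _ (mem_univ (1 : Fin (k + 2)))] at h ⊢
  have e : ∑ x ∈ univ.erase (1 : Fin (k + 2)), #(IP α x) = ∑ x ∈ univ.erase (1 : Fin (k + 2)), α x := by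
    apply sum_congr rfl
    intro i hi
    unfold IP
    rw [if_neg (ne_of_mem_erase hi), Int.card_Ico]
    omega
  have e1 : #(IP α 1) = α 1 - 1 := by
    unfold IP
    rw [if_pos rfl, Int.card_Ico]
    omega
  rw [e, e1]
  omega

theorem IQ_card {α : Fin (k + 2) → ℕ} (h : α ∈ AA (k + 2) ((k + 2) ^ 2)) (h1 : α 1 = 0) :
    ∑ j, #(IQ α j) = (k + 2) ^ 2 - 1 := by
  have hA := h
  rw [mem_AA] at h
  by_cases ht : Tp α
  · obtain ⟨hj0, hj1⟩ := jf_ne hA ht
    rw [← Finset.add_sum_erase univ _ (mem_univ (1 : Fin (k + 2))),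
      ← Finset.add_sum_erase (univ.erase 1) _ (a := jf α) (by simp [hj1])] at h ⊢
    have e : ∑ x ∈ (univ.erase (1 : Fin (k + 2))).erase (jf α), #(IQ α x) = ∑ x ∈ (univ.erase (1 : Fin (k + 2))).erase (jf α), α x := by
      apply sum_congr rfl
      intro i hi
      rw [mem_erase, mem_erase] at hi
      unfold IQ
      rw [if_pos ht, if_neg hi.2.1, if_neg hi.1, Int.card_Ico]
      omega
    have e1 : #(IQ α 1) = rr α := by
      unfold IQ
      rw [if_pos ht, if_pos rfl, Int.card_Ioc]
      omega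
    have e2 : #(IQ α (jf α)) = α (jf α) - (rr α + 1) := by
      unfold IQ
      rw [if_pos ht, if_neg hj1, if_pos rfl, Int.card_Ico]
      omega
    have := rr_lt hA
    rw [e, e1, e2]
    omega
  · have h0 : 1 ≤ α 0 := by
      by_contra hc
      exact ht ⟨by omega, h1⟩
    rw [← Finset.add_sum_erase univ _ (mem_univ (0 : Fin (k + 2)))] at h ⊢
    have e : ∑ x ∈ univ.erase (0 : Fin (k + 2)), #(IQ α x) = ∑ x ∈ univ.erase (0 : Fin (k + 2)), α x := by
      apply sum_congr rfl
      intro i hi
      unfold IQ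
      rw [if_neg ht, if_neg (ne_of_mem_erase hi), Int.card_Ico]
      omega
    have e1 : #(IQ α 0) = α 0 - 1 := by
      unfold IQ
      rw [if_neg ht, if_pos rfl, Int.card_Ico]
      omega
    rw [e, e1]
    omega

/-- the first part of the exponents -/
def AP (k : ℕ) : Finset (Fin (k + 2) → ℕ) := (AA (k + 2) ((k + 2) ^ 2)).filter fun α => 1 ≤ α 1

/-- the second part of the exponents -/
def AQ (k : ℕ) : Finset (Fin (k + 2) → ℕ) := (AA (k + 2) ((k + 2) ^ 2)).filter fun α => α 1 = 0

theorem hD0 (k : ℕ) : 0 < (k + 2) ^ 2 := by positivity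

theorem indP [CharZero K] (w : (Fin (k + 2) → ℕ) → K)
    (hw : ∀ H : MvPolynomial (Fin (k + 2)) K, H.IsHomogeneous ((k + 2) ^ 2 - 1) →
      ∑ a ∈ AP k, w a * eval (pt K (yy a)) H = 0) : ∀ a ∈ AP k, w a = 0 := by
  have hnt : ∀ a ∈ AP k, ¬ Tp a := fun a ha ht => by
    have := (mem_filter.1 ha).2
    have := ht.2
    omega
  apply tri (AP k) yy (fun _ => 0) IP (hD0 k) (fun a ha => yy_sum (mem_filter.1 ha).1)
    (fun a ha => IP_card (mem_filter.1 ha).1 (mem_filter.1 ha).2) _ _ w hw
  · intro a ha j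
    rw [yy_of_not (hnt a ha)]
    unfold IP ip
    split_ifs with h
    · subst h; simp
    · simp
  · intro a ha b hb _ h
    apply le_eq (mem_filter.1 ha).1 (mem_filter.1 hb).1
    intro j
    have h1 := h j
    rw [yy_of_not (hnt b hb)] at h1
    unfold IP ip at h1
    have hb1 := (mem_filter.1 hb).2
    split_ifs at h1 with hj
    · subst hj
      rw [mem_Ico] at h1
      omega
    · rw [mem_Ico] at h1
      omega

theorem indQ [CharZero K] (w : (Fin (k + 2) → ℕ) → K)
    (hw : ∀ H : MvPolynomial (Fin (k + 2)) K, H.IsHomogeneous ((k + 2) ^ 2 - 1) →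
      ∑ a ∈ AQ k, w a * eval (pt K (yy a)) H = 0) : ∀ a ∈ AQ k, w a = 0 := by
  apply tri (AQ k) yy (fun a => if Tp a then rr a else 0) IQ (hD0 k) (fun a ha => yy_sum (mem_filter.1 ha).1)
    (fun a ha => IQ_card (mem_filter.1 ha).1 (mem_filter.1 ha).2) _ _ w hw
  · intro a ha j
    have hA := (mem_filter.1 ha).1
    have ha1 := (mem_filter.1 ha).2
    by_cases ht : Tp a
    · obtain ⟨hj0, hj1⟩ := jf_ne hA ht
      have hr := rr_lt hA
      unfold IQ
      rw [if_pos ht]
      by_cases g1 : j = 1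
      · rw [g1, if_pos rfl, yy_one ht]; simp
      · rw [if_neg g1]
        by_cases g2 : j = 0
        · rw [g2, if_neg (Ne.symm hj0), yy_zero ht, ht.1]; simp
        · rw [yy_other g2 g1]
          by_cases g3 : j = jf a
          · rw [if_pos g3]; simp
          · rw [if_neg g3]; simp
    · rw [yy_of_not ht]
      unfold IQ ip
      rw [if_neg ht]
      split_ifs with h
      · subst h; simp
      · simp
  · intro a ha b hb hle h
    have hA := (mem_filter.1 ha).1
    have hB := (mem_filter.1 hb).1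
    have ha1 := (mem_filter.1 ha).2
    have hb1 := (mem_filter.1 hb).2
    apply le_eq hA hB
    by_cases ht : Tp a
    · obtain ⟨hj0, hj1⟩ := jf_ne hA ht
      have hra := rr_ge hA ht
      rw [if_pos ht] at hle
      have hI : ∀ j, IQ a j = if j = 1 then Ioc (-(rr a : ℤ)) 0 else if j = jf a then Ico ((rr a : ℤ) + 1) (a j) else Ico 0 (a j : ℤ) := by
        intro j; unfold IQ; rw [if_pos ht]
      by_cases htb : Tp b
      · have h1 := h 1
        rw [hI, if_pos rfl, yy_one htb, mem_Ioc] at h1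
        rw [if_pos htb] at hle
        have hrr : rr b = rr a := by omega
        have hjj : jf b = jf a := Fin.ext hrr
        intro j
        by_cases g1 : j = 1
        · rw [g1, ha1]; exact Nat.zero_le _
        by_cases g0 : j = 0
        · rw [g0, ht.1]; exact Nat.zero_le _
        have h2 := h j
        rw [hI, if_neg g1, yy_other g0 g1] at h2
        by_cases g3 : j = jf a
        · rw [if_pos g3, mem_Ico] at h2
          have h3 := rr_lt hB
          rw [hjj, ← g3, hrr] at h3
          omega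
        · rw [if_neg g3, mem_Ico] at h2
          omega
      · exfalso
        have h1 := h 1
        rw [hI, if_pos rfl, yy_of_not htb, mem_Ioc] at h1
        have h1' : ip b 1 = 0 := by unfold ip; rw [hb1]; rfl
        rw [h1'] at h1
        apply h1
        constructor <;> omega
    · rw [if_neg ht] at hle
      have htb : ¬ Tp b := by
        intro htb
        rw [if_pos htb] at hle
        have := rr_ge hB htb
        omega
      have hb0 : 1 ≤ b 0 := by
        by_contra hc
        exact htb ⟨by omega, hb1⟩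
      intro j
      have h1 := h j
      rw [yy_of_not htb] at h1
      unfold IQ ip at h1
      rw [if_neg ht] at h1
      by_cases g0 : j = 0
      · rw [if_pos g0, mem_Ico, g0] at h1
        rw [g0]
        omega
      · rw [if_neg g0, mem_Ico] at h1
        omega

/-- no form of degree `D` vanishes at all the points -/
theorem zero_of [CharZero K] {G : MvPolynomial (Fin (k + 2)) K} (hG : G.IsHomogeneous ((k + 2) ^ 2))
    (h : ∀ α ∈ AA (k + 2) ((k + 2) ^ 2), eval (pt K (yy α)) G = 0) : G = 0 := by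
  obtain ⟨c, hc⟩ := expand (hD0 k) hG
  have h1 : ∀ α ∈ AA (k + 2) ((k + 2) ^ 2), ¬ Tp α → c α = 0 := by
    intro α hα ht
    have h2 := h α hα
    rw [hc, map_sum, Finset.sum_eq_single α, smul_eval, yy_of_not ht] at h2
    · exact (mul_eq_zero.1 h2).resolve_right (hh_self (hD0 k) hα)
    · intro β hβ hne
      rw [smul_eval, yy_of_not ht, hh_ne (hD0 k) hβ hα (Ne.symm hne), mul_zero]
    · intro h; exact absurd hα h
  have h2 : ∀ α ∈ AA (k + 2) ((k + 2) ^ 2), c α = 0 := by
    intro α hα
    by_cases ht : Tp α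
    · have h3 := h α hα
      rw [hc, map_sum, Finset.sum_eq_single α, smul_eval] at h3
      · refine (mul_eq_zero.1 h3).resolve_right ((eval_PP (hD0 k) (yy_sum hα) _).2 ?_)
        intro j
        by_cases g0 : j = 0
        · rw [g0, ht.1]; simp
        by_cases g1 : j = 1
        · rw [g1, ht.2]; simp
        rw [yy_other g0 g1]; simp
      · intro β hβ hne
        rw [smul_eval]
        by_cases htb : Tp β
        · have h4 : eval (pt K (yy α)) (hh K ((k + 2) ^ 2) β) = 0 := by
            by_contra hcon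
            have h5 := (eval_PP (hD0 k) (yy_sum hα) _).1 hcon
            apply hne
            symm
            apply le_eq hβ hα
            intro j
            by_cases g0 : j = 0
            · rw [g0, htb.1]; exact Nat.zero_le _
            by_cases g1 : j = 1
            · rw [g1, htb.2]; exact Nat.zero_le _
            have h6 := h5 j
            rw [yy_other g0 g1, mem_Ico] at h6
            omega
          rw [h4, mul_zero]
        · rw [h1 β hβ htb, zero_mul]
      · intro h; exact absurd hα h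
    · exact h1 α hα ht
  rw [hc]
  apply sum_eq_zero
  intro α hα
  rw [h2 α hα, zero_smul]

end Pool.Agent.KS6_12.GH
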