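import Pool.Agent.KS6_12.GH.Cfg

/-!
The level algebra of type two.
-/

set_option autoImplicit false

namespace Pool.Agent.KS6_12.GH

open MvPolynomial Finset

variable {K : Type} [Field K] {n k : ℕ}

theorem hc_mul (g : MvPolynomial (Fin n) K) {F : MvPolynomial (Fin n) K} {c : ℕ} (hF : F.IsHomogeneous c) (m : ℕ) :
    homogeneousComponent m (g * F) = if c ≤ m then homogeneousComponent (m - c) g * F else 0 := by
  conv_lhs => rw [← sum_homogeneousComponent g]
  rw [sum_mul, map_sum]
  have h1 : ∀ i, homogeneousComponent m (homogeneousComponent i g * F) = if m = i + c then homogeneousComponent i g * F else 0 := by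
    intro i
    have h2 : (homogeneousComponent i g * F).IsHomogeneous (i + c) := (homogeneousComponent_isHomogeneous i g).mul hF
    exact homogeneousComponent_of_mem ((mem_homogeneousSubmodule _ _).2 h2)
  simp only [h1]
  split_ifs with h
  · by_cases h2 : m - c ∈ range (g.totalDegree + 1)
    · rw [Finset.sum_eq_single (m - c)]
      · rw [if_pos (by omega)]
      · intro i _ hi
        rw [if_neg (by omega)]
      · intro h3; exact absurd h2 h3
    · rw [Finset.sum_eq_zero, homogeneousComponent_eq_zero, zero_mul]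
      · rw [mem_range] at h2; omega
      · intro i hi
        rw [if_neg]
        rintro rfl
        apply h2
        rwa [Nat.add_sub_cancel]
  · apply sum_eq_zero
    intro i _
    rw [if_neg (by omega)]

/-- the two functionals -/
noncomputable def ev (K : Type) [Field K] {k : ℕ} (s : Finset (Fin (k + 2) → ℕ)) : MvPolynomial (Fin (k + 2)) K →ₗ[K] K where
  toFun f := ∑ a ∈ s, eval (pt K (yy a)) f
  map_add' f g := by simp only [map_add, sum_add_distrib]
  map_smul' c f := by simp only [smul_eval, mul_sum, RingHom.id_apply, smul_eq_mul]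

theorem ev_apply (s : Finset (Fin (k + 2) → ℕ)) (f : MvPolynomial (Fin (k + 2)) K) :
    ev K s f = ∑ a ∈ s, eval (pt K (yy a)) f := rfl

/-- the degree of the socle -/
abbrev sd (k : ℕ) : ℕ := 2 * (k + 2) ^ 2 - 1

/-- the ideal -/
noncomputable def II (K : Type) [Field K] (k : ℕ) : Ideal (MvPolynomial (Fin (k + 2)) K) where
  carrier := {f | ∀ g, ev K (AP k) (homogeneousComponent (sd k) (g * f)) = 0 ∧
    ev K (AQ k) (homogeneousComponent (sd k) (g * f)) = 0}
  add_mem' := by
    intro a b ha hb g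
    rw [mul_add, map_add, map_add, map_add, (ha g).1, (hb g).1, (ha g).2, (hb g).2]
    simp
  zero_mem' := by
    intro g
    simp
  smul_mem' := by
    intro c f hf g
    rw [smul_eq_mul, ← mul_assoc]
    exact hf (g * c)

theorem mem_II {f : MvPolynomial (Fin (k + 2)) K} : f ∈ II K k ↔
    ∀ g, ev K (AP k) (homogeneousComponent (sd k) (g * f)) = 0 ∧ ev K (AQ k) (homogeneousComponent (sd k) (g * f)) = 0 :=
  Iff.rfl

theorem II_homog {f : MvPolynomial (Fin (k + 2)) K} (hf : f ∈ II K k) (c : ℕ) : homogeneousComponent c f ∈ II K k := by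
  rw [mem_II]
  intro g
  rw [hc_mul g (homogeneousComponent_isHomogeneous c f)]
  split_ifs with h
  · have h1 := mem_II.1 hf (homogeneousComponent (sd k - c) g)
    rw [mul_comm, hc_mul f (homogeneousComponent_isHomogeneous (sd k - c) g), if_pos (by omega),
      show sd k - (sd k - c) = c by omega, mul_comm] at h1
    exact h1
  · simp

theorem hc_pow {f : MvPolynomial (Fin n) K} {m : ℕ} (hf : f ∈ idealOfVars (Fin n) K ^ (m + 1)) :
    homogeneousComponent m f = 0 := by
  rw [mem_pow_idealOfVars_iff'] at hf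
  ext d
  rw [coeff_homogeneousComponent, coeff_zero]
  split_ifs with h
  · exact hf d (by omega)
  · rfl

theorem le_II : idealOfVars (Fin (k + 2)) K ^ (2 * (k + 2) ^ 2) ≤ II K k := by
  intro f hf
  rw [mem_II]
  intro g
  have h1 : g * f ∈ idealOfVars (Fin (k + 2)) K ^ (sd k + 1) := by
    apply Ideal.mul_mem_left
    rw [show sd k + 1 = 2 * (k + 2) ^ 2 by have := hD0 k; unfold sd; omega]
    exact hf
  rw [hc_pow h1]
  simp

theorem II_le [CharZero K] : II K k ≤ idealOfVars (Fin (k + 2)) K ^ ((k + 2) ^ 2 + 1) := by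
  intro f hf
  have key : ∀ c, c ≤ (k + 2) ^ 2 → homogeneousComponent c f = 0 := by
    intro c hc
    obtain ⟨G, hG⟩ : ∃ G, G = X 0 ^ ((k + 2) ^ 2 - c) * homogeneousComponent c f := ⟨_, rfl⟩
    have hGI : G ∈ II K k := by rw [hG]; exact Ideal.mul_mem_left _ _ (II_homog hf c)
    have hGh : G.IsHomogeneous ((k + 2) ^ 2) := by
      rw [hG]
      have := (isHomogeneous_X_pow (R := K) (0 : Fin (k + 2)) ((k + 2) ^ 2 - c)).mul (homogeneousComponent_isHomogeneous c f)
      rwa [Nat.sub_add_cancel hc] at this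
    have hD := hD0 k
    have h1 : ∀ H : MvPolynomial (Fin (k + 2)) K, H.IsHomogeneous ((k + 2) ^ 2 - 1) →
        homogeneousComponent (sd k) (H * G) = H * G := by
      intro H hH
      have h2 : (H * G).IsHomogeneous (sd k) := by
        have := hH.mul hGh
        rwa [show (k + 2) ^ 2 - 1 + (k + 2) ^ 2 = sd k by unfold sd; omega] at this
      rw [homogeneousComponent_of_mem ((mem_homogeneousSubmodule _ _).2 h2), if_pos rfl]
    have hP := indP (K := K) (k := k) (fun a => eval (pt K (yy a)) G) (fun H hH => by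
      have h2 := (mem_II.1 hGI H).1
      rw [h1 H hH, ev_apply] at h2
      rw [← h2]
      apply sum_congr rfl
      intro a _
      rw [map_mul, mul_comm])
    have hQ := indQ (K := K) (k := k) (fun a => eval (pt K (yy a)) G) (fun H hH => by
      have h2 := (mem_II.1 hGI H).2
      rw [h1 H hH, ev_apply] at h2
      rw [← h2]
      apply sum_congr rfl
      intro a _
      rw [map_mul, mul_comm])
    have h0 : G = 0 := by
      apply zero_of hGh
      intro α hα
      rcases Nat.eq_zero_or_pos (α 1) with h | h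
      · exact hQ α (mem_filter.2 ⟨hα, h⟩)
      · exact hP α (mem_filter.2 ⟨hα, h⟩)
    rw [hG] at h0
    exact (mul_eq_zero.1 h0).resolve_left (pow_ne_zero _ (X_ne_zero _))
  rw [mem_pow_idealOfVars_iff']
  intro d hd
  have h1 := congrArg (coeff d) (key d.degree (by omega))
  rw [coeff_homogeneousComponent, if_pos rfl, coeff_zero] at h1
  exact h1

/-! ### the socle -/

theorem mem_of_colon {f : MvPolynomial (Fin (k + 2)) K} (hf : ∀ i, X i * f ∈ II K k)
    (h1 : ev K (AP k) (homogeneousComponent (sd k) f) = 0) (h2 : ev K (AQ k) (homogeneousComponent (sd k) f) = 0) :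
    f ∈ II K k := by
  rw [mem_II]
  intro g
  induction g using MvPolynomial.induction_on with
  | C a =>
    rw [homogeneousComponent_C_mul, ← smul_eq_C_mul, map_smul, map_smul, h1, h2]
    simp
  | add p q hp hq =>
    rw [add_mul, map_add, map_add, map_add, hp.1, hq.1, hp.2, hq.2]
    simp
  | mul_X p i _ =>
    rw [mul_assoc]
    exact mem_II.1 (hf i) p

theorem single_mem (i : Fin n) (D : ℕ) : Pi.single i D ∈ AA n D := by
  rw [mem_AA, Finset.sum_pi_single']
  simp

/-- ranges on the coordinate `1` only -/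
def I1 (k : ℕ) (J : Finset ℤ) (i : Fin (k + 2)) : Finset ℤ := if i = 1 then J else ∅

theorem I1_card (J : Finset ℤ) : ∑ j, #(I1 k J j) = #J := by
  rw [Finset.sum_eq_single 1]
  · unfold I1; rw [if_pos rfl]
  · intro j _ hj
    unfold I1; rw [if_neg hj]; rfl
  · intro h; exact absurd (mem_univ _) h

theorem I1_eval [CharZero K] {J : Finset ℤ} {α : Fin (k + 2) → ℕ} (h : α ∈ AA (k + 2) ((k + 2) ^ 2)) :
    eval (pt K (yy α)) (PP K ((k + 2) ^ 2) (I1 k J)) ≠ 0 ↔ yy α 1 ∉ J := by
  rw [eval_PP (hD0 k) (yy_sum h)]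
  constructor
  · intro h1
    have := h1 1
    unfold I1 at this
    rwa [if_pos rfl] at this
  · intro h1 j
    unfold I1
    split_ifs with hj
    · rw [hj]; exact h1
    · simp

theorem yy_P {α : Fin (k + 2) → ℕ} (h : α ∈ AP k) : 1 ≤ yy α 1 ∧ yy α 1 ≤ ((k + 2) ^ 2 : ℕ) := by
  obtain ⟨hA, h1⟩ := mem_filter.1 h
  have hnt : ¬ Tp α := fun ht => by have := ht.2; omega
  rw [yy_of_not hnt]
  unfold ip
  have h2 : α 1 ≤ (k + 2) ^ 2 := by
    rw [mem_AA] at hA
    rw [← hA]
    exact single_le_sum (f := α) (fun _ _ => Nat.zero_le _) (mem_univ 1)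
  constructor
  · exact_mod_cast h1
  · exact_mod_cast h2

theorem yy_Q {α : Fin (k + 2) → ℕ} (h : α ∈ AQ k) : -((k + 2) ^ 2 : ℕ) < yy α 1 ∧ yy α 1 ≤ 0 := by
  obtain ⟨hA, h1⟩ := mem_filter.1 h
  have hD := hD0 k
  by_cases ht : Tp α
  · rw [yy_one ht]
    have h2 : rr α < k + 2 := (jf α).2
    have h3 : k + 2 ≤ (k + 2) ^ 2 := by nlinarith
    constructor
    · have : rr α < (k + 2) ^ 2 := by omega
      omega
    · omega
  · rw [yy_of_not ht]
    unfold ip
    rw [h1]
    constructor
    · push_cast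
      have : (0 : ℤ) < (k + 2) ^ 2 := by positivity
      omega
    · simp

theorem exists_A [CharZero K] : ∃ A : MvPolynomial (Fin (k + 2)) K, A.IsHomogeneous (sd k) ∧ ev K (AP k) A ≠ 0 ∧
    ev K (AQ k) A = 0 := by
  have hD := hD0 k
  obtain ⟨F, hF⟩ : ∃ F, F = PP K ((k + 2) ^ 2) (I1 k (Ioc (-((k + 2) ^ 2 : ℕ) : ℤ) 0)) := ⟨_, rfl⟩
  have hFh : F.IsHomogeneous ((k + 2) ^ 2) := by
    have := PP_hom (K := K) ((k + 2) ^ 2) (I1 k (Ioc (-((k + 2) ^ 2 : ℕ) : ℤ) 0))
    rw [I1_card, Int.card_Ioc] at this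
    rw [hF]
    have e : ((0 : ℤ) - (-((k + 2) ^ 2 : ℕ) : ℤ)).toNat = (k + 2) ^ 2 := by omega
    rwa [e] at this
  have hQ : ∀ a ∈ AQ k, eval (pt K (yy a)) F = 0 := by
    intro a ha
    by_contra hcon
    rw [hF] at hcon
    have := (I1_eval (mem_filter.1 ha).1).1 hcon
    exact this (mem_Ioc.2 (yy_Q ha))
  have hP : ∀ a ∈ AP k, eval (pt K (yy a)) F ≠ 0 := by
    intro a ha
    rw [hF]
    refine (I1_eval (mem_filter.1 ha).1).2 fun h => ?_
    have h1 := (mem_Ioc.1 h).2
    have h2 := (yy_P ha).1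
    omega
  by_contra hcon
  push Not at hcon
  have h0 : ∀ H : MvPolynomial (Fin (k + 2)) K, H.IsHomogeneous ((k + 2) ^ 2 - 1) →
      ∑ a ∈ AP k, eval (pt K (yy a)) F * eval (pt K (yy a)) H = 0 := by
    intro H hH
    by_contra hne
    apply hcon (F * H)
    · have := hFh.mul hH
      rwa [show (k + 2) ^ 2 + ((k + 2) ^ 2 - 1) = sd k by unfold sd; omega] at this
    · rw [ev_apply]
      simp only [map_mul]
      exact hne
    · rw [ev_apply]
      apply sum_eq_zero
      intro a ha
      rw [map_mul, hQ a ha, zero_mul]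
  have h1 := indP (K := K) (k := k) _ h0
  have h2 : Pi.single 1 ((k + 2) ^ 2) ∈ AP k := by
    unfold AP
    rw [mem_filter]
    exact ⟨single_mem _ _, by simp only [Pi.single_eq_same]; omega⟩
  exact hP _ h2 (h1 _ h2)

theorem exists_B [CharZero K] : ∃ B : MvPolynomial (Fin (k + 2)) K, B.IsHomogeneous (sd k) ∧ ev K (AP k) B = 0 ∧
    ev K (AQ k) B ≠ 0 := by
  have hD := hD0 k
  obtain ⟨F, hF⟩ : ∃ F, F = PP K ((k + 2) ^ 2) (I1 k (Icc (1 : ℤ) ((k + 2) ^ 2 : ℕ))) := ⟨_, rfl⟩
  have hFh : F.IsHomogeneous ((k + 2) ^ 2) := by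
    have := PP_hom (K := K) ((k + 2) ^ 2) (I1 k (Icc (1 : ℤ) ((k + 2) ^ 2 : ℕ)))
    rw [I1_card, Int.card_Icc] at this
    rw [hF]
    have e : (((k + 2) ^ 2 : ℕ) + 1 - 1 : ℤ).toNat = (k + 2) ^ 2 := by omega
    rwa [e] at this
  have hP : ∀ a ∈ AP k, eval (pt K (yy a)) F = 0 := by
    intro a ha
    by_contra hcon
    rw [hF] at hcon
    have := (I1_eval (mem_filter.1 ha).1).1 hcon
    exact this (mem_Icc.2 (yy_P ha))
  have hQ : ∀ a ∈ AQ k, eval (pt K (yy a)) F ≠ 0 := by
    intro a ha
    rw [hF]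
    refine (I1_eval (mem_filter.1 ha).1).2 fun h => ?_
    have h1 := (mem_Icc.1 h).1
    have h2 := (yy_Q ha).2
    omega
  by_contra hcon
  push Not at hcon
  have h0 : ∀ H : MvPolynomial (Fin (k + 2)) K, H.IsHomogeneous ((k + 2) ^ 2 - 1) →
      ∑ a ∈ AQ k, eval (pt K (yy a)) F * eval (pt K (yy a)) H = 0 := by
    intro H hH
    have h1 := hcon (F * H) (by
      have := hFh.mul hH
      rwa [show (k + 2) ^ 2 + ((k + 2) ^ 2 - 1) = sd k by unfold sd; omega] at this) (by
      rw [ev_apply]
      apply sum_eq_zero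
      intro a ha
      rw [map_mul, hP a ha, zero_mul])
    rw [ev_apply] at h1
    simpa only [map_mul] using h1
  have h1 := indQ (K := K) (k := k) _ h0
  have h2 : Pi.single 0 ((k + 2) ^ 2) ∈ AQ k := by
    unfold AQ
    rw [mem_filter]
    exact ⟨single_mem _ _, by rw [Pi.single_eq_of_ne (by simp)]⟩
  exact hQ _ h2 (h1 _ h2)

/-- The socle of `S / I`: the elements killed by all variables. -/
def socle {K : Type} [Field K] {n : ℕ} (I : Ideal (MvPolynomial (Fin n) K)) :
    Submodule K (MvPolynomial (Fin n) K ⧸ I) where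
  carrier := {z | ∀ i : Fin n, Ideal.Quotient.mk I (X i) * z = 0}
  add_mem' := by
    intro a b ha hb i
    rw [mul_add, ha i, hb i, add_zero]
  zero_mem' := by
    intro i
    rw [mul_zero]
  smul_mem' := by
    intro c z hz i
    rw [mul_smul_comm, hz i, smul_zero]

theorem hom_mem_pow {f : MvPolynomial (Fin n) K} {m : ℕ} (hf : f.IsHomogeneous m) : f ∈ idealOfVars (Fin n) K ^ m := by
  rw [mem_pow_idealOfVars_iff']
  intro d hd
  by_contra h
  have h1 := hf h
  rw [Finsupp.weight_apply, Finsupp.sum_fintype _ _ (by simp)] at h1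
  rw [Finsupp.degree_eq_sum] at hd
  simp only [Pi.one_apply, smul_eq_mul, mul_one] at h1
  omega

theorem X_mul_mem {A : MvPolynomial (Fin (k + 2)) K} (hA : A.IsHomogeneous (sd k)) (i : Fin (k + 2)) : X i * A ∈ II K k := by
  apply le_II
  have h1 := hom_mem_pow ((isHomogeneous_X K i).mul hA)
  rwa [show 1 + sd k = 2 * (k + 2) ^ 2 by have := hD0 k; unfold sd; omega] at h1

theorem hc_self {A : MvPolynomial (Fin n) K} {m : ℕ} (hA : A.IsHomogeneous m) : homogeneousComponent m A = A := by
  rw [homogeneousComponent_of_mem ((mem_homogeneousSubmodule _ _).2 hA), if_pos rfl]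

theorem socle_rank [CharZero K] : Module.finrank K (socle (II K k)) = 2 := by
  classical
  obtain ⟨A, hA, hA1, hA2⟩ := exists_A (K := K) (k := k)
  obtain ⟨B, hB, hB1, hB2⟩ := exists_B (K := K) (k := k)
  have hval : ∀ a b : K, ev K (AP k) (homogeneousComponent (sd k) (a • A + b • B)) = a * ev K (AP k) A ∧
      ev K (AQ k) (homogeneousComponent (sd k) (a • A + b • B)) = b * ev K (AQ k) B := by
    intro a b
    simp only [map_add, map_smul, hc_self hA, hc_self hB, hA2, hB1, smul_eq_mul, mul_zero, add_zero, zero_add]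
    exact ⟨trivial, trivial⟩
  obtain ⟨v, hv⟩ : ∃ v : Fin 2 → MvPolynomial (Fin (k + 2)) K ⧸ II K k,
    v = ![Ideal.Quotient.mk (II K k) A, Ideal.Quotient.mk (II K k) B] := ⟨_, rfl⟩
  have hli : LinearIndependent K v := by
    rw [Fintype.linearIndependent_iff]
    intro g hg
    rw [Fin.sum_univ_two, hv] at hg
    have h1 : g 0 • A + g 1 • B ∈ II K k := by
      rw [← Ideal.Quotient.eq_zero_iff_mem, map_add]
      exact hg
    have h2 := mem_II.1 h1 1
    rw [one_mul, (hval _ _).1, (hval _ _).2] at h2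
    intro i
    fin_cases i
    · exact (mul_eq_zero.1 h2.1).resolve_right hA1
    · exact (mul_eq_zero.1 h2.2).resolve_right hB2
  have hspan : socle (II K k) = Submodule.span K (Set.range v) := by
    apply le_antisymm
    · intro z hz
      obtain ⟨f, rfl⟩ := Ideal.Quotient.mk_surjective z
      have hf : ∀ i, X i * f ∈ II K k := by
        intro i
        have := hz i
        rwa [← map_mul, Ideal.Quotient.eq_zero_iff_mem] at this
      obtain ⟨a, ha⟩ : ∃ a, a = ev K (AP k) (homogeneousComponent (sd k) f) / ev K (AP k) A := ⟨_, rfl⟩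
      obtain ⟨b, hb⟩ : ∃ b, b = ev K (AQ k) (homogeneousComponent (sd k) f) / ev K (AQ k) B := ⟨_, rfl⟩
      have h1 : f - (a • A + b • B) ∈ II K k := by
        apply mem_of_colon
        · intro i
          rw [mul_sub, mul_add, mul_smul_comm, mul_smul_comm]
          refine Ideal.sub_mem _ (hf i) (Ideal.add_mem _ ?_ ?_)
          · rw [smul_eq_C_mul]; exact Ideal.mul_mem_left _ _ (X_mul_mem hA i)
          · rw [smul_eq_C_mul]; exact Ideal.mul_mem_left _ _ (X_mul_mem hB i)
        · rw [map_sub, map_sub, (hval a b).1, ha, div_mul_cancel₀ _ hA1, sub_self]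
        · rw [map_sub, map_sub, (hval a b).2, hb, div_mul_cancel₀ _ hB2, sub_self]
      rw [← Ideal.Quotient.eq_zero_iff_mem, map_sub, sub_eq_zero] at h1
      rw [h1, map_add]
      refine Submodule.add_mem _ ?_ ?_
      · have : Ideal.Quotient.mk (II K k) (a • A) = a • v 0 := by rw [hv]; rfl
        rw [this]
        exact Submodule.smul_mem _ _ (Submodule.subset_span (Set.mem_range_self 0))
      · have : Ideal.Quotient.mk (II K k) (b • B) = b • v 1 := by rw [hv]; rfl
        rw [this]
        exact Submodule.smul_mem _ _ (Submodule.subset_span (Set.mem_range_self 1))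
    · rw [Submodule.span_le]
      rintro _ ⟨i, rfl⟩ j
      rw [hv]
      fin_cases i
      · show Ideal.Quotient.mk (II K k) (X j) * Ideal.Quotient.mk (II K k) A = 0
        rw [← map_mul, Ideal.Quotient.eq_zero_iff_mem]
        exact X_mul_mem hA j
      · show Ideal.Quotient.mk (II K k) (X j) * Ideal.Quotient.mk (II K k) B = 0
        rw [← map_mul, Ideal.Quotient.eq_zero_iff_mem]
        exact X_mul_mem hB j
  rw [hspan, finrank_span_eq_card hli, Fintype.card_fin]

/-- the quotient is artinian -/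
theorem artin (I : Ideal (MvPolynomial (Fin n) K)) (e : ℕ) (h : idealOfVars (Fin n) K ^ e ≤ I) :
    IsArtinianRing (MvPolynomial (Fin n) K ⧸ I) := by
  classical
  have hfin : Module.Finite K (MvPolynomial (Fin n) K ⧸ I) := by
    refine ⟨⟨((range e).biUnion fun j => AA n j).image fun α =>
      Ideal.Quotient.mk I (monomial (Finsupp.equivFunOnFinite.symm α) (1 : K)), ?_⟩⟩
    rw [Submodule.eq_top_iff']
    intro z
    obtain ⟨f, rfl⟩ := Ideal.Quotient.mk_surjective z
    rw [f.as_sum, map_sum]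
    apply Submodule.sum_mem
    intro d _
    by_cases hd : d.degree < e
    · have h2 : monomial d (coeff d f) = coeff d f • monomial (Finsupp.equivFunOnFinite.symm (d : Fin n → ℕ)) (1 : K) := by
        rw [smul_monomial, smul_eq_mul, mul_one, Finsupp.equivFunOnFinite_symm_coe]
      rw [h2]
      show coeff d f • Ideal.Quotient.mk I (monomial (Finsupp.equivFunOnFinite.symm (d : Fin n → ℕ)) (1 : K)) ∈ _
      apply Submodule.smul_mem
      apply Submodule.subset_span
      rw [coe_image]
      refine ⟨(d : Fin n → ℕ), ?_, rfl⟩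
      rw [mem_coe, mem_biUnion]
      refine ⟨d.degree, mem_range.2 hd, ?_⟩
      rw [mem_AA, Finsupp.degree_eq_sum]
    · have h1 : monomial d (coeff d f) ∈ I := by
        apply h
        rw [mem_pow_idealOfVars_iff']
        intro d' hd'
        rw [coeff_monomial, if_neg]
        rintro rfl
        exact hd hd'
      rw [Ideal.Quotient.eq_zero_iff_mem.2 h1]
      exact Submodule.zero_mem _
  exact IsArtinianRing.of_finite K _

end Pool.Agent.KS6_12.GH
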