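import Mathlib

/-!
Products of linear forms at the points of a simplex grid: independence and the Lagrange basis.
-/

set_option autoImplicit false

namespace Pool.Agent.KS6_12.GH

open MvPolynomial Finset

variable {K : Type} [Field K] {n : ℕ}

/-- the linear form which is `1` at the points of coordinate sum `D` -/
noncomputable def ef (K : Type) [Field K] (n D : ℕ) : MvPolynomial (Fin n) K := C ((D : K)⁻¹) * ∑ j, X j

noncomputable def lf (K : Type) [Field K] (n D : ℕ) (j : Fin n) (i : ℤ) : MvPolynomial (Fin n) K :=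
  X j - C (i : K) * ef K n D

/-- product of linear forms -/
noncomputable def PP (K : Type) [Field K] {n : ℕ} (D : ℕ) (I : Fin n → Finset ℤ) : MvPolynomial (Fin n) K :=
  ∏ j, ∏ i ∈ I j, lf K n D j i

/-- integer points -/
def pt (K : Type) [Field K] {n : ℕ} (y : Fin n → ℤ) : Fin n → K := fun j => (y j : K)

theorem ef_hom (D : ℕ) : (ef K n D).IsHomogeneous 1 :=
  IsHomogeneous.C_mul (IsHomogeneous.sum _ _ _ fun _ _ => isHomogeneous_X _ _) _

theorem lf_hom (D : ℕ) (j : Fin n) (i : ℤ) : (lf K n D j i).IsHomogeneous 1 :=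
  (isHomogeneous_X _ _).sub ((ef_hom D).C_mul _)

theorem PP_hom (D : ℕ) (I : Fin n → Finset ℤ) : (PP K D I).IsHomogeneous (∑ j, #(I j)) := by
  unfold PP
  apply IsHomogeneous.prod
  intro j _
  have := IsHomogeneous.prod (I j) (fun i => lf K n D j i) (fun _ => 1) fun i _ => lf_hom D j i
  simpa using this

theorem eval_ef [CharZero K] {D : ℕ} (hD : 0 < D) {y : Fin n → ℤ} (hy : ∑ j, y j = D) :
    eval (pt K y) (ef K n D) = 1 := by
  have hD' : (D : K) ≠ 0 := by exact_mod_cast hD.ne'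
  have h1 : ∑ j, (y j : K) = D := by
    have := congrArg (Int.cast (R := K)) hy
    push_cast at this
    exact this
  simp only [ef, pt, map_mul, eval_C, map_sum, eval_X, h1]
  exact inv_mul_cancel₀ hD'

theorem eval_PP [CharZero K] {D : ℕ} (hD : 0 < D) {y : Fin n → ℤ} (hy : ∑ j, y j = D) (I : Fin n → Finset ℤ) :
    eval (pt K y) (PP K D I) ≠ 0 ↔ ∀ j, y j ∉ I j := by
  unfold PP
  rw [map_prod, Finset.prod_ne_zero_iff]
  have h1 : ∀ j, (eval (pt K y) (∏ i ∈ I j, lf K n D j i) ≠ 0 ↔ y j ∉ I j) := by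
    intro j
    rw [map_prod, Finset.prod_ne_zero_iff]
    have h2 : ∀ i : ℤ, (eval (pt K y) (lf K n D j i) ≠ 0 ↔ y j ≠ i) := by
      intro i
      simp only [lf, map_sub, map_mul, eval_X, eval_C, eval_ef hD hy, mul_one, pt]
      rw [Ne, sub_eq_zero, Int.cast_inj]
    constructor
    · intro h hj
      exact (h2 _).1 (h _ hj) rfl
    · intro h i hi
      rw [h2]
      rintro rfl
      exact h hi
  constructor
  · intro h j
    exact (h1 j).1 (h j (mem_univ j))
  · intro h j _
    exact (h1 j).2 (h j)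

/-- independence of the evaluations at a triangular family of points -/
theorem tri [CharZero K] {ι : Type} (s : Finset ι) (y : ι → Fin n → ℤ) (r : ι → ℕ) (I : ι → Fin n → Finset ℤ)
    {D : ℕ} (hD : 0 < D) (hy : ∀ a ∈ s, ∑ j, y a j = D) (hc : ∀ a ∈ s, ∑ j, #(I a j) = D - 1)
    (h1 : ∀ a ∈ s, ∀ j, y a j ∉ I a j)
    (h2 : ∀ a ∈ s, ∀ b ∈ s, r b ≤ r a → (∀ j, y b j ∉ I a j) → b = a)
    (w : ι → K) (hw : ∀ H : MvPolynomial (Fin n) K, H.IsHomogeneous (D - 1) →
      ∑ a ∈ s, w a * eval (pt K (y a)) H = 0) : ∀ a ∈ s, w a = 0 := by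
  classical
  by_contra hcon
  push Not at hcon
  obtain ⟨a0, ha0, hwa0⟩ := hcon
  obtain ⟨a, ha, hmax⟩ := exists_max_image (s.filter fun a => w a ≠ 0) r ⟨a0, by simp [ha0, hwa0]⟩
  rw [mem_filter] at ha
  have h3 := hw (PP K D (I a)) (by rw [← hc a ha.1]; exact PP_hom D (I a))
  rw [Finset.sum_eq_single a] at h3
  · rcases mul_eq_zero.1 h3 with h | h
    · exact ha.2 h
    · exact (eval_PP hD (hy a ha.1) (I a)).2 (h1 a ha.1) h
  · intro b hb hba
    by_cases hwb : w b = 0
    · rw [hwb, zero_mul]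
    · have hle := hmax b (by rw [mem_filter]; exact ⟨hb, hwb⟩)
      by_cases h4 : eval (pt K (y b)) (PP K D (I a)) = 0
      · rw [h4, mul_zero]
      · exact absurd (h2 a ha.1 b hb hle ((eval_PP hD (hy b hb) (I a)).1 h4)) hba
  · intro h; exact absurd ha.1 h

/-! ### the Lagrange basis -/

/-- exponents of degree `D` -/
def AA (n D : ℕ) : Finset (Fin n → ℕ) := (univ : Finset (Fin n)).piAntidiag D

theorem mem_AA {D : ℕ} {α : Fin n → ℕ} : α ∈ AA n D ↔ ∑ j, α j = D := by
  unfold AA
  rw [mem_piAntidiag]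
  simp

/-- the point of an exponent -/
def ip (α : Fin n → ℕ) : Fin n → ℤ := fun j => (α j : ℤ)

theorem ip_sum {D : ℕ} {α : Fin n → ℕ} (h : α ∈ AA n D) : ∑ j, ip α j = D := by
  rw [mem_AA] at h
  unfold ip
  exact_mod_cast h

/-- the Lagrange function -/
noncomputable def hh (K : Type) [Field K] {n : ℕ} (D : ℕ) (α : Fin n → ℕ) : MvPolynomial (Fin n) K :=
  PP K D fun j => Ico 0 (α j : ℤ)

theorem hh_hom {D : ℕ} {α : Fin n → ℕ} (h : α ∈ AA n D) : (hh K D α).IsHomogeneous D := by
  have h1 := PP_hom (K := K) D fun j => Ico 0 (α j : ℤ)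
  have h2 : ∑ j, #(Ico 0 (α j : ℤ)) = D := by
    rw [mem_AA] at h
    simp only [Int.card_Ico, sub_zero, Int.toNat_natCast]
    exact h
  rw [h2] at h1
  exact h1

theorem le_eq {D : ℕ} {α β : Fin n → ℕ} (hα : α ∈ AA n D) (hβ : β ∈ AA n D) (h : ∀ j, α j ≤ β j) : β = α := by
  rw [mem_AA] at hα hβ
  by_contra hne
  obtain ⟨j, hj⟩ := Function.ne_iff.1 hne
  have : ∑ j, α j < ∑ j, β j := sum_lt_sum (fun j _ => h j) ⟨j, mem_univ j, lt_of_le_of_ne (h j) (Ne.symm hj)⟩
  omega

theorem hh_self [CharZero K] {D : ℕ} (hD : 0 < D) {α : Fin n → ℕ} (h : α ∈ AA n D) :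
    eval (pt K (ip α)) (hh K D α) ≠ 0 := by
  rw [hh, eval_PP hD (ip_sum h)]
  intro j
  simp [ip]

theorem hh_ne [CharZero K] {D : ℕ} (hD : 0 < D) {α β : Fin n → ℕ} (hα : α ∈ AA n D) (hβ : β ∈ AA n D) (h : β ≠ α) :
    eval (pt K (ip β)) (hh K D α) = 0 := by
  by_contra hcon
  have h1 := (eval_PP hD (ip_sum hβ) _).1 hcon
  apply h
  apply le_eq hα hβ
  intro j
  have := h1 j
  simp only [mem_Ico, not_and, not_lt, ip] at this
  have := this (by positivity)
  exact_mod_cast this

theorem expand [CharZero K] {D : ℕ} (hD : 0 < D) {G : MvPolynomial (Fin n) K} (hG : G.IsHomogeneous D) :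
    ∃ c : (Fin n → ℕ) → K, G = ∑ α ∈ AA n D, c α • hh K D α := by
  classical
  set W : Submodule K (MvPolynomial (Fin n) K) :=
    Submodule.span K (Set.range fun α : AA n D => monomial (Finsupp.equivFunOnFinite.symm α.1) (1 : K)) with hW
  have hmem : ∀ p : MvPolynomial (Fin n) K, p.IsHomogeneous D → p ∈ W := by
    intro p hp
    rw [p.as_sum]
    apply Submodule.sum_mem
    intro d hd
    rw [mem_support_iff] at hd
    have h1 : (d : Fin n → ℕ) ∈ AA n D := by
      rw [mem_AA]
      have := hp hd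
      rw [← this, Finsupp.weight_apply, Finsupp.sum_fintype]
      · simp
      · simp
    have h2 : monomial d (coeff d p) = coeff d p • monomial (Finsupp.equivFunOnFinite.symm (d : Fin n → ℕ)) (1 : K) := by
      rw [smul_monomial, smul_eq_mul, mul_one, Finsupp.equivFunOnFinite_symm_coe]
    rw [h2]
    exact Submodule.smul_mem _ _ (Submodule.subset_span ⟨⟨_, h1⟩, rfl⟩)
  have hli : LinearIndependent K (fun α : AA n D => hh K D α.1) := by
    rw [Fintype.linearIndependent_iff]
    intro g hg β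
    have h1 := congrArg (eval (pt K (ip β.1))) hg
    rw [map_sum, map_zero, Finset.sum_eq_single β] at h1
    · rw [smul_eval] at h1
      exact (mul_eq_zero.1 h1).resolve_right (hh_self hD β.2)
    · intro α _ hα
      rw [smul_eval, hh_ne hD α.2 β.2 (fun h => hα (Subtype.ext h.symm)), mul_zero]
    · intro h; exact absurd (mem_univ _) h
  have hfin : FiniteDimensional K W := FiniteDimensional.span_of_finite K (Set.finite_range _)
  have hle : Submodule.span K (Set.range fun α : AA n D => hh K D α.1) ≤ W := by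
    rw [Submodule.span_le]
    rintro _ ⟨α, rfl⟩
    exact hmem _ (hh_hom α.2)
  have heq : Submodule.span K (Set.range fun α : AA n D => hh K D α.1) = W := by
    apply Submodule.eq_of_le_of_finrank_le hle
    rw [finrank_span_eq_card hli]
    exact finrank_range_le_card _
  have h3 := hmem G hG
  rw [← heq, Submodule.mem_span_range_iff_exists_fun] at h3
  obtain ⟨c, hc⟩ := h3
  refine ⟨fun α => if h : α ∈ AA n D then c ⟨α, h⟩ else 0, ?_⟩
  rw [← hc, ← Finset.sum_coe_sort (AA n D)]
  apply sum_congr rfl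
  intro α _
  show c α • hh K D α.1 = (if h : α.1 ∈ AA n D then c ⟨α.1, h⟩ else 0) • hh K D α.1
  rw [dif_pos α.2]

end Pool.Agent.KS6_12.GH
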